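import Pool.Agent.H30.FA.TA

/-!
# MP_6a7a6f_gt, row FLP: the functions `FV`
-/

set_option autoImplicit false

namespace Pool.Agent.H11.FA

open Pool.Agent.H30.FA

theorem trc_norm_le (A : ℕ) {d : ℕ} (z : V d) : ∑ a, ‖trc A z a‖ ^ 2 ≤ ‖z‖ ^ 2 := by
  obtain ⟨φ, hφ⟩ : ∃ φ : ℕ → ℝ, φ = fun n => if h : n < d then ‖z ⟨n, h⟩‖ ^ 2 else 0 := ⟨_, rfl⟩
  have hφ0 : ∀ n, 0 ≤ φ n := fun n => by
    rw [hφ]
    simp only
    split_ifs
    · positivity
    · exact le_rfl
  have e1 : ∑ a, ‖trc A z a‖ ^ 2 = ∑ n ∈ Finset.range A, φ n := by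
    rw [Finset.sum_range]
    refine Finset.sum_congr rfl fun a _ => ?_
    rw [hφ]
    unfold trc
    simp only
    by_cases h : (a : ℕ) < d
    · rw [dif_pos h, dif_pos h]
    · rw [dif_neg h, dif_neg h]
      simp
  have e2 : ‖z‖ ^ 2 = ∑ n ∈ Finset.range d, φ n := by
    rw [EuclideanSpace.norm_sq_eq, Finset.sum_range]
    refine Finset.sum_congr rfl fun a _ => ?_
    rw [hφ]
    simp only
    rw [dif_pos a.2]
  have e3 : ∑ n ∈ Finset.range d, φ n = ∑ n ∈ Finset.range (max A d), φ n := by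
    refine Finset.sum_subset (Finset.range_mono (le_max_right _ _)) fun n _ hn => ?_
    rw [Finset.mem_range] at hn
    rw [hφ]
    simp only
    rw [dif_neg hn]
  rw [e1, e2, e3]
  exact Finset.sum_le_sum_of_subset_of_nonneg (Finset.range_mono (le_max_left _ _))
    fun n _ _ => hφ0 n

theorem trc_smul (A : ℕ) {d : ℕ} (c : ℂ) (z : V d) : trc A (c • z) = c • trc A z := by
  funext a
  unfold trc
  by_cases h : (a : ℕ) < d
  · simp only [dif_pos h, Pi.smul_apply]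
    rfl
  · simp only [dif_neg h, Pi.smul_apply, smul_zero]

section

variable {A D : ℕ} {J : Type} [Fintype J] {k : ℕ}

theorem fG_nonneg (v : FF A D) (t : J → ℝ) (x : J → V (k + 2)) (h h' : V (k + 2))
    (G : V (k + 2) ≃ₗᵢ[ℂ] V (k + 2)) : 0 ≤ fG v t x h h' G := by
  unfold fG
  positivity

theorem FV_le (v : FF A D) (t : J → ℝ) (x : J → V (k + 2)) (h h' : V (k + 2))
    (G : V (k + 2) ≃ₗᵢ[ℂ] V (k + 2)) : FV v t x h h' ≤ fG v t x h h' G := by
  unfold FV
  refine ciInf_le ⟨0, ?_⟩ G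
  rintro _ ⟨G, rfl⟩
  exact fG_nonneg v t x h h' G

theorem ft_norm (hFTR : T_FTR) {x : J → V (k + 2)} (hx : ∀ j, ‖x j‖ = 1)
    (G : V (k + 2) ≃ₗᵢ[ℂ] V (k + 2)) (j : J) :
    ‖ft D (trc A (G.symm (x j)))‖ ≤ Real.sqrt (D + 1) := by
  refine Real.le_sqrt_of_sq_le ((hFTR A D _ (trc A (G.symm (x j)))).2.1 ?_)
  refine (trc_norm_le A _).trans ?_
  rw [LinearIsometryEquiv.norm_map, hx, one_pow]

theorem FV_lip (hFTR : T_FTR) (v : FF A D) (t t' : J → ℝ) {x : J → V (k + 2)}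
    (hx : ∀ j, ‖x j‖ = 1) (h h' l l' : V (k + 2)) :
    FV v t x h h' ≤ FV v t' x l l' +
      (Real.sqrt (D + 1) * ∑ j, |t j - t' j| + ‖h - l‖ + ‖h' - l'‖) := by
  have key : ∀ G, FV v t x h h' -
      (Real.sqrt (D + 1) * ∑ j, |t j - t' j| + ‖h - l‖ + ‖h' - l'‖) ≤ fG v t' x l l' G := by
    intro G
    have e0 := FV_le v t x h h' G
    have e1 : ‖mom A D t' x G - mom A D t x G‖ ≤ Real.sqrt (D + 1) * ∑ j, |t j - t' j| := by
      unfold mom
      rw [← Finset.sum_sub_distrib, Finset.mul_sum]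
      refine norm_sum_le_of_le _ fun j _ => ?_
      rw [← sub_smul, norm_smul, ← Complex.ofReal_sub, Complex.norm_real, Real.norm_eq_abs,
        abs_sub_comm, mul_comm]
      exact mul_le_mul_of_nonneg_right (ft_norm hFTR hx G j) (abs_nonneg _)
    have e2 : ‖v - mom A D t x G‖ ≤ ‖v - mom A D t' x G‖ +
        ‖mom A D t' x G - mom A D t x G‖ := by
      have : v - mom A D t x G = (v - mom A D t' x G) + (mom A D t' x G - mom A D t x G) := by
        abel
      rw [this]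
      exact norm_add_le _ _
    have e3 : ∀ y h l : V (k + 2), ‖y - h‖ ≤ ‖y - l‖ + ‖h - l‖ := by
      intro y h l
      have : y - h = (y - l) - (h - l) := by abel
      rw [this]
      exact norm_sub_le _ _
    have e4 := e3 (G (eb 0)) h l
    have e5 := e3 (G (eb 1)) h' l'
    unfold fG at e0 ⊢
    linarith
  have h2 : FV v t x h h' -
      (Real.sqrt (D + 1) * ∑ j, |t j - t' j| + ‖h - l‖ + ‖h' - l'‖) ≤ FV v t' x l l' := by
    have : Nonempty (V (k + 2) ≃ₗᵢ[ℂ] V (k + 2)) := ⟨LinearIsometryEquiv.refl ℂ _⟩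
    exact le_ciInf key
  linarith

theorem FV_smul_le (hFTR : T_FTR) (v : FF A D) (t : J → ℝ) (x : J → V (k + 2))
    (h h' : V (k + 2)) (α : ℂ) (hα : ‖α‖ = 1) :
    FV v t x (α • h) (α • h') ≤ FV v t x h h' := by
  have hα0 : α ≠ 0 := by
    rintro rfl
    simp at hα
  have : Nonempty (V (k + 2) ≃ₗᵢ[ℂ] V (k + 2)) := ⟨LinearIsometryEquiv.refl ℂ _⟩
  refine le_ciInf fun G => ?_
  let u : V (k + 2) ≃ₗᵢ[ℂ] V (k + 2) :=
    { LinearEquiv.smulOfNeZero ℂ (V (k + 2)) α hα0 with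
      norm_map' := fun z => by
        change ‖α • z‖ = ‖z‖
        rw [norm_smul, hα, one_mul] }
  have hu : ∀ z, u z = α • z := fun z => rfl
  refine (FV_le v t x (α • h) (α • h') (u.trans G)).trans (le_of_eq ?_)
  have h1 : ∀ y, (u.trans G) y = α • G y := fun y => by
    rw [LinearIsometryEquiv.trans_apply, hu, map_smul]
  have h2 : ∀ y, (u.trans G).symm y = α⁻¹ • G.symm y := fun y => by
    rw [LinearIsometryEquiv.symm_apply_eq, h1, map_smul, LinearIsometryEquiv.apply_symm_apply,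
      smul_smul, mul_inv_cancel₀ hα0, one_smul]
  have hα' : ‖α⁻¹‖ = 1 := by rw [norm_inv, hα, inv_one]
  unfold fG mom
  have h3 : ∀ j, ft D (trc A ((u.trans G).symm (x j))) = ft D (trc A (G.symm (x j))) := fun j =>
    by
    rw [h2, trc_smul]
    exact (hFTR A D _ (trc A (G.symm (x j)))).2.2.1 _ hα'
  simp only [h3]
  rw [h1, h1, ← smul_sub, ← smul_sub, norm_smul, norm_smul, hα, one_mul, one_mul]

end

theorem pf_FLP (hFTR : T_FTR) : T_FLP := by
  intro A D J _ k v t t' x h h' l l' _ _ hx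
  have hne : Nonempty (V (k + 2) ≃ₗᵢ[ℂ] V (k + 2)) := ⟨LinearIsometryEquiv.refl ℂ _⟩
  refine ⟨le_ciInf fun G => fG_nonneg v t x h h' G, FV_le v t x h h', ?_, ?_, ?_⟩
  · intro ε hε
    exact exists_lt_of_ciInf_lt (lt_add_of_pos_right (FV v t x h h') hε)
  · have e1 := FV_lip hFTR v t t' hx h h' l l'
    have e2 := FV_lip hFTR v t' t hx l l' h h'
    have e3 : ∑ j, |t' j - t j| = ∑ j, |t j - t' j| :=
      Finset.sum_congr rfl fun j _ => abs_sub_comm _ _
    rw [e3, norm_sub_rev l h, norm_sub_rev l' h'] at e2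
    rw [abs_le]
    constructor <;> linarith
  · intro α hα
    have hα0 : α ≠ 0 := by
      rintro rfl
      simp at hα
    refine le_antisymm (FV_smul_le hFTR v t x h h' α hα) ?_
    have hα' : ‖α⁻¹‖ = 1 := by rw [norm_inv, hα, inv_one]
    have e1 := FV_smul_le hFTR v t x (α • h) (α • h') α⁻¹ hα'
    rwa [smul_smul, smul_smul, inv_mul_cancel₀ hα0, one_smul, one_smul] at e1

end Pool.Agent.H11.FA
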