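import Pool.Agent.H30.FA.TA

/-!
# MP_6a7a6f_gt, row NSY: configurations have no approximate symmetry
-/

set_option autoImplicit false

namespace Pool.Agent.H11.FA

open Pool.Agent.H30.FA

theorem Sy_mono {κ : ℝ} {J E : Type} [Fintype J] [NormedAddCommGroup E] [InnerProductSpace ℂ E]
    {d : ℕ} {C : Cfg κ J E d} {D D' : ℕ} {ε ε' : ℝ} {a₀ a₁ : Fin d} {g : E ≃ₗᵢ[ℂ] E}
    (hD : D ≤ D') (hε : ε' ≤ ε) (h : Sy C D' ε' a₀ a₁ g) : Sy C D ε a₀ a₁ g :=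
  ⟨h.1.trans hε, h.2.1.trans hε, fun j hj => by
    have := h.2.2 j (hj.trans hD)
    linarith⟩

theorem midsum_add {κ : ℝ} {J E : Type} [Fintype J] [NormedAddCommGroup E]
    [InnerProductSpace ℂ E] {d : ℕ} (C : Cfg κ J E d) {δ δ' δ'' : ℝ} (h1 : δ ≤ δ')
    (h2 : δ' ≤ δ'') : midsum C δ δ'' = midsum C δ δ' + midsum C δ' δ'' := by
  unfold midsum
  rw [← Finset.sum_add_distrib]
  refine Finset.sum_congr rfl fun a _ => ?_
  by_cases c1 : δ ≤ C.r a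
  · by_cases c2 : C.r a < δ'
    · rw [if_pos ⟨c1, by linarith⟩, if_pos ⟨c1, c2⟩, if_neg (by intro h; linarith [h.1]),
        add_zero]
    · push Not at c2
      by_cases c3 : C.r a < δ''
      · rw [if_pos ⟨c1, c3⟩, if_neg (by intro h; linarith [h.2]), if_pos ⟨c2, c3⟩, zero_add]
      · rw [if_neg (by intro h; exact c3 h.2), if_neg (by intro h; linarith [h.2]),
          if_neg (by intro h; exact c3 h.2), add_zero]
  · rw [if_neg (by intro h; exact c1 h.1), if_neg (by intro h; exact c1 h.1),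
      if_neg (by intro h; exact c1 (h1.trans h.1)), add_zero]

theorem pf_NSY (hBAS : T_BAS) (hSTE : T_STE) : T_NSY := by
  intro κ κ₂ hκ hκ₂
  obtain ⟨e₀, he₀, hstep⟩ := hSTE κ κ₂ hκ hκ₂
  have claim : ∀ l : ℕ, ∃ (δ : ℝ) (D : ℕ) (ε : ℝ), 0 < δ ∧ δ ≤ 1 / 4 ∧ 0 < ε ∧
      ∀ (J E : Type) [Fintype J] [NormedAddCommGroup E] [InnerProductSpace ℂ E] (d : ℕ)
        (C : Cfg κ J E d) (a₀ a₁ : Fin d) (g : E ≃ₗᵢ[ℂ] E), κ₂ ≤ C.r a₀ → κ₂ ≤ C.r a₁ →
        Sy C D ε a₀ a₁ g → (l : ℝ) * e₀ ≤ midsum C δ (1 / 4) := by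
    intro l
    induction l with
    | zero =>
      refine ⟨1 / 4, 0, 1, by norm_num, le_rfl, one_pos, ?_⟩
      intro J E _ _ _ d C a₀ a₁ g _ _ _
      rw [Nat.cast_zero, zero_mul]
      refine Finset.sum_nonneg fun a _ => ?_
      split_ifs
      · exact (hBAS κ J E d C).2.1 a
      · exact le_rfl
    | succ l ih =>
      obtain ⟨δ, D, ε, hδ, hδ4, hε, h⟩ := ih
      obtain ⟨δ', D', ε', hδ', hδδ, hε', h'⟩ := hstep δ hδ hδ4
      refine ⟨δ', max D D', min ε ε', hδ', by linarith, lt_min hε hε', ?_⟩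
      intro J E _ _ _ d C a₀ a₁ g h0 h1 hS
      have e1 := h J E d C a₀ a₁ g h0 h1 (Sy_mono (le_max_left _ _) (min_le_left _ _) hS)
      have e2 := h' J E d C a₀ a₁ g h0 h1 (Sy_mono (le_max_right _ _) (min_le_right _ _) hS)
      rw [midsum_add C hδδ.le hδ4]
      push_cast
      linarith
  obtain ⟨l, hl⟩ := exists_nat_gt (1 / e₀)
  obtain ⟨δ, D, ε, hδ, hδ4, hε, h⟩ := claim l
  refine ⟨D, ε, hε, ?_⟩
  intro J E _ _ _ d C a₀ a₁ g h0 h1 hS
  have e1 := h J E d C a₀ a₁ g h0 h1 hS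
  have e2 : midsum C δ (1 / 4) ≤ 1 := by
    rw [← (hBAS κ J E d C).2.2.2.1]
    refine Finset.sum_le_sum fun a _ => ?_
    split_ifs
    · exact le_rfl
    · exact (hBAS κ J E d C).2.1 a
  rw [div_lt_iff₀ he₀] at hl
  linarith

end Pool.Agent.H11.FA
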