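import Pool.Agent.H30.FA.TA

/-!
# MP_6a7a6f_gt, row PDK: powers of an approximate symmetry
-/

set_option autoImplicit false

namespace Pool.Agent.H11.FA

open Pool.Agent.H30.FA

section

variable {E : Type} [NormedAddCommGroup E] [InnerProductSpace ℂ E]

/-- the feature map of the kernel `|<y, y'>|^(2 j)` -/
noncomputable def Fe {d : ℕ} (j : ℕ) (e : OrthonormalBasis (Fin d) ℂ E) (y : E) :
    EuclideanSpace ℂ (Fin j → Fin d × Fin d) :=
  WithLp.toLp 2 fun p => ∏ l, (inner ℂ (e (p l).1) y * inner ℂ y (e (p l).2))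

theorem inner_Fe {d : ℕ} (j : ℕ) (e : OrthonormalBasis (Fin d) ℂ E) (y y' : E) :
    inner ℂ (Fe j e y) (Fe j e y') = ((‖inner ℂ y y'‖ ^ (2 * j) : ℝ) : ℂ) := by
  rw [PiLp.inner_apply]
  have h1 : ∀ p : Fin j → Fin d × Fin d, inner ℂ ((Fe j e y) p) ((Fe j e y') p) =
      ∏ l, ((inner ℂ y (e (p l).1) * inner ℂ (e (p l).1) y') *
        (inner ℂ y' (e (p l).2) * inner ℂ (e (p l).2) y)) := by
    intro p
    change inner ℂ (∏ l, (inner ℂ (e (p l).1) y * inner ℂ y (e (p l).2)) : ℂ)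
      (∏ l, (inner ℂ (e (p l).1) y' * inner ℂ y' (e (p l).2)) : ℂ) = _
    rw [RCLike.inner_apply, map_prod, ← Finset.prod_mul_distrib]
    refine Finset.prod_congr rfl fun l _ => ?_
    rw [map_mul, inner_conj_symm, inner_conj_symm]
    ring
  have h2 := Fintype.sum_pow (fun q : Fin d × Fin d =>
    (inner ℂ y (e q.1) * inner ℂ (e q.1) y') * (inner ℂ y' (e q.2) * inner ℂ (e q.2) y) : _ → ℂ) j
  rw [Finset.sum_congr rfl fun p _ => h1 p, ← h2, Fintype.sum_prod_type]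
  have h3 : ∑ a, ∑ b, (inner ℂ y (e a) * inner ℂ (e a) y') *
      (inner ℂ y' (e b) * inner ℂ (e b) y) = inner ℂ y y' * inner ℂ y' y := by
    rw [← Finset.sum_mul_sum, e.sum_inner_mul_inner, e.sum_inner_mul_inner]
  rw [h3, ← inner_conj_symm y' y, Complex.mul_conj']
  push_cast
  ring

end

theorem pf_PDK : T_PDK := by
  intro J E _ _ _ d e t x j g
  obtain ⟨D, hD⟩ : ∃ D : ℕ → EuclideanSpace ℂ (Fin j → Fin d × Fin d), D = fun m =>
    ∑ i, ((t i : ℝ) : ℂ) • Fe j e ((g ^ m) (x i)) := ⟨_, rfl⟩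
  have hin : ∀ m m', inner ℂ (D m) (D m') = ((∑ i, ∑ k, t i * t k *
      ‖inner ℂ ((g ^ m) (x i)) ((g ^ m') (x k))‖ ^ (2 * j) : ℝ) : ℂ) := by
    intro m m'
    rw [hD]
    simp only
    rw [sum_inner]
    push_cast
    refine Finset.sum_congr rfl fun i _ => ?_
    rw [inner_smul_left, inner_sum, Finset.mul_sum]
    refine Finset.sum_congr rfl fun k _ => ?_
    rw [inner_smul_right, inner_Fe, Complex.conj_ofReal]
    push_cast
    ring
  have hone : ∀ m y, (g ^ (m + 1)) y = (g ^ m) (g y) := fun m y => by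
    rw [pow_succ]
    rfl
  have hG1 : ∀ m, inner ℂ (D m) (D m) = ((qq t x j 1 : ℝ) : ℂ) := by
    intro m
    rw [hin]
    congr 1
    unfold qq
    refine Finset.sum_congr rfl fun i _ => Finset.sum_congr rfl fun k _ => ?_
    rw [LinearIsometryEquiv.inner_map_map]
    rfl
  have hG2 : ∀ m, inner ℂ (D m) (D (m + 1)) = ((qq t x j g : ℝ) : ℂ) := by
    intro m
    rw [hin]
    congr 1
    unfold qq
    refine Finset.sum_congr rfl fun i _ => Finset.sum_congr rfl fun k _ => ?_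
    rw [hone, LinearIsometryEquiv.inner_map_map]
  have hG3 : ∀ m, inner ℂ (D 0) (D m) = ((qq t x j (g ^ m) : ℝ) : ℂ) := by
    intro m
    rw [hin]
    congr 1
  have hn : ∀ m m' : ℕ, ∀ r : ℝ, inner ℂ (D m) (D m') = (r : ℂ) →
      ‖D m - D m'‖ ^ 2 = 2 * (qq t x j 1 - r) := by
    intro m m' r h
    have e1 := @norm_sub_sq ℂ (EuclideanSpace ℂ (Fin j → Fin d × Fin d)) _ _ _ (D m) (D m')
    have e2 : ‖D m‖ ^ 2 = qq t x j 1 := by
      rw [← inner_self_eq_norm_sq (𝕜 := ℂ) (D m), hG1]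
      simp only [RCLike.re_to_complex, Complex.ofReal_re]
    have e3 : ‖D m'‖ ^ 2 = qq t x j 1 := by
      rw [← inner_self_eq_norm_sq (𝕜 := ℂ) (D m'), hG1]
      simp only [RCLike.re_to_complex, Complex.ofReal_re]
    rw [e1, e2, e3, h]
    simp only [RCLike.re_to_complex, Complex.ofReal_re]
    ring
  have h1 : ∀ m, ‖D m - D (m + 1)‖ ^ 2 = 2 * (qq t x j 1 - qq t x j g) := fun m =>
    hn m (m + 1) _ (hG2 m)
  have h2 : ∀ m, ‖D m - D (m + 1)‖ = ‖D 0 - D 1‖ := by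
    intro m
    have e1 := h1 m
    have e2 := h1 0
    rw [zero_add] at e2
    exact (pow_left_inj₀ (norm_nonneg _) (norm_nonneg _) two_ne_zero).mp (e1.trans e2.symm)
  have h3 : ∀ m : ℕ, ‖D 0 - D m‖ ≤ m * ‖D 0 - D 1‖ := by
    intro m
    induction m with
    | zero => simp
    | succ m ih =>
      have e1 : D 0 - D (m + 1) = (D 0 - D m) + (D m - D (m + 1)) := by abel
      rw [e1]
      refine (norm_add_le _ _).trans ?_
      rw [h2 m]
      push_cast
      linarith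
  refine ⟨?_, fun m => ?_⟩
  · have := h1 0
    have h4 : 0 ≤ ‖D 0 - D (0 + 1)‖ ^ 2 := sq_nonneg _
    linarith
  · have e1 := hn 0 m _ (hG3 m)
    have e2 := h1 0
    rw [zero_add] at e2
    have e3 := pow_le_pow_left₀ (norm_nonneg _) (h3 m) 2
    rw [e1, mul_pow, e2] at e3
    linarith

end Pool.Agent.H11.FA
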